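import Mathlib
import Pool.Agent.MP_29b5d3_an.GE.AllO

set_option autoImplicit false

namespace Pool.Agent.Results.MP_29b5d3_an.AllDimensions

open Pool.Agent.MP_29b5d3_an.h48

/-- In every dimension `n ≥ 2` and for every `K > 1`, the least upper bound of the exponents
of local integrability of the derivative of all `K`-quasiregular maps is exactly `nK/(K-1)`. -/
theorem result :
  ∀ n : ℕ, 2 ≤ n → ∀ K : ℝ, 1 < K →
    IsLUB {p : ℝ | (n : ℝ) ≤ p ∧
      ∀ Ω f Df, IsQR (n := n) K Ω f Df → LocLp (ENNReal.ofReal p) Ω Df}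
      ((n : ℝ) * K / (K - 1)) :=
  fun n hn => Pool.Agent.MP_29b5d3_an.GO.sharp n hn

end Pool.Agent.Results.MP_29b5d3_an.AllDimensions
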